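import Mathlib

/-!
# Doubly-derived reverse multiples

If `p` is a shifted-symmetric `(n, b)`-palintiple and `p̂` is an `(n̂, b̂)`-palintiple doubly derived from `p`, then
`n̂ = b`. Write `d₀, d_k` for the extreme digits of `p` and `c` for its first carry, so that `d_k = n d₀ + c` and
`b c = (n² - 1) d₀ + n c`. The extreme columns of `p̂` give `(n̂² - 1) ∣ b̂ d₀` and `n̂ d_k + d₀ ≡ b̂ d₁` modulo
`n̂² - 1`, hence `d₀ (n̂ d_k + d₀) = l (n̂² - 1)` for an integer `l`. With `κ = n̂ l - d₀ d_k` one gets
`n̂ (l - n κ) = c d₀ + κ - n l`, and the right side is smaller than `n̂` in absolute value. So `l = n κ`, and then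
`(n̂ - b) (n̂ + n) = 0`.
-/

set_option autoImplicit false

namespace Pool.Agent.Results.MP_6bbb8b_nt.MultiplierEqualsBase

/-- The digits `d 0, …, d k` in base `b` are those of an `(n, b)`-palintiple `(d_k, …, d_0)_b`. -/
structure IsPalintiple (n b k : ℕ) (d : ℕ → ℕ) : Prop where
  one_lt : 1 < n
  lt_base : n < b
  three_le : 3 ≤ b
  one_le : 1 ≤ k
  digit : ∀ j ≤ k, d j < b
  last_ne : d 0 ≠ 0
  mul_reverse : ∑ j ∈ Finset.range (k + 1), d j * b ^ j =
    n * ∑ j ∈ Finset.range (k + 1), d (k - j) * b ^ j

/-- `c 0, …, c k` (and `c (k + 1) = 0`) are the carries of the palintiple with digits `d`. -/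
structure IsCarries (n b k : ℕ) (d c : ℕ → ℕ) : Prop where
  zero : c 0 = 0
  last : c (k + 1) = 0
  column : ∀ j ≤ k, n * d (k - j) + c j = d j + b * c (j + 1)

/-- Every palintiple has carries. -/
theorem exists_carries {n b k : ℕ} {d : ℕ → ℕ} (h : IsPalintiple n b k d) :
    ∃ c, IsCarries n b k d c := by
  have hb : 0 < b := by have := h.three_le; omega
  -- partial sums of the difference are divisible by powers of `b`
  let C : ℕ → ℕ := fun j => Nat.rec 0 (fun i ci => (n * d (k - i) + ci) / b) j
  have hC : ∀ i, C (i + 1) = (n * d (k - i) + C i) / b := fun i => rfl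
  have hC0 : C 0 = 0 := rfl
  -- remainders
  have hsum : ∀ m, n * ∑ j ∈ Finset.range m, d (k - j) * b ^ j =
      ∑ j ∈ Finset.range m, ((n * d (k - j) + C j) % b) * b ^ j + C m * b ^ m := by
    intro m
    induction m with
    | zero => simp [hC0]
    | succ m ih =>
      rw [Finset.sum_range_succ, Finset.sum_range_succ, mul_add, ih, hC]
      have h1 := Nat.div_add_mod (n * d (k - m) + C m) b
      have h2 : C m * b ^ m + n * (d (k - m) * b ^ m) =
          (n * d (k - m) + C m) % b * b ^ m + (n * d (k - m) + C m) / b * b ^ (m + 1) := by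
        have h3 : (n * d (k - m) + C m) * b ^ m =
            (b * ((n * d (k - m) + C m) / b) + (n * d (k - m) + C m) % b) * b ^ m := by
          rw [h1]
        rw [pow_succ]
        nlinarith [h3]
      omega
  -- uniqueness of digits
  have huniq : ∀ (m : ℕ) (x y : ℕ → ℕ) (e : ℕ), (∀ j < m, x j < b) → (∀ j < m, y j < b) →
      ∑ j ∈ Finset.range m, x j * b ^ j = ∑ j ∈ Finset.range m, y j * b ^ j + e * b ^ m →
      e = 0 ∧ ∀ j < m, x j = y j := by
    intro m
    induction m with
    | zero =>
      intro x y e _ _ h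
      simp at h
      exact ⟨h.symm, fun j hj => by omega⟩
    | succ m ih =>
      intro x y e hx hy h
      rw [Finset.sum_range_succ', Finset.sum_range_succ'] at h
      simp only [pow_zero, mul_one, pow_succ] at h
      have e1 : ∀ z : ℕ → ℕ, ∑ j ∈ Finset.range m, z (j + 1) * (b ^ j * b) =
          b * ∑ j ∈ Finset.range m, z (j + 1) * b ^ j := by
        intro z
        rw [Finset.mul_sum]
        apply Finset.sum_congr rfl
        intro j _
        ring
      rw [e1, e1] at h
      have hx0 := hx 0 (by omega)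
      have hy0 := hy 0 (by omega)
      have h0 : x 0 = y 0 := by
        have h4 : (b * ∑ j ∈ Finset.range m, x (j + 1) * b ^ j + x 0) % b = x 0 := by
          rw [Nat.mul_add_mod]; exact Nat.mod_eq_of_lt hx0
        have h5 : (b * ∑ j ∈ Finset.range m, y (j + 1) * b ^ j + y 0 + e * (b ^ m * b)) % b =
            y 0 := by
          rw [show b * ∑ j ∈ Finset.range m, y (j + 1) * b ^ j + y 0 + e * (b ^ m * b) =
            b * (∑ j ∈ Finset.range m, y (j + 1) * b ^ j + e * b ^ m) + y 0 by ring,
            Nat.mul_add_mod]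
          exact Nat.mod_eq_of_lt hy0
        rw [← h4, h, h5]
      have h6 : b * ∑ j ∈ Finset.range m, x (j + 1) * b ^ j =
          b * (∑ j ∈ Finset.range m, y (j + 1) * b ^ j + e * b ^ m) := by
        rw [h0] at h
        have : b * (∑ j ∈ Finset.range m, y (j + 1) * b ^ j + e * b ^ m) =
          b * ∑ j ∈ Finset.range m, y (j + 1) * b ^ j + e * (b ^ m * b) := by ring
        omega
      have h7 := Nat.eq_of_mul_eq_mul_left hb h6
      obtain ⟨h8, h9⟩ := ih (fun j => x (j + 1)) (fun j => y (j + 1)) e
        (fun j hj => hx (j + 1) (by omega)) (fun j hj => hy (j + 1) (by omega)) h7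
      refine ⟨h8, ?_⟩
      intro j hj
      rcases j with _ | j
      · exact h0
      · exact h9 j (by omega)
  have h1 := hsum (k + 1)
  rw [← h.mul_reverse] at h1
  obtain ⟨h2, h3⟩ := huniq (k + 1) d (fun j => (n * d (k - j) + C j) % b) (C (k + 1))
    (fun j hj => h.digit j (by omega)) (fun j _ => Nat.mod_lt _ hb) h1
  refine ⟨C, hC0, h2, ?_⟩
  intro j hj
  have h4 := h3 j (by omega)
  rw [hC, h4]
  have h5 := Nat.mod_add_div (n * d (k - j) + C j) b
  exact h5.symm

theorem key (n b m d0 dk c D0 D1 b' d1 : ℤ) (hn : 1 < n) (hb : 0 < b) (hd0 : 0 < d0)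
    (hc : 0 ≤ c) (hdkb : dk < b)
    (h1 : n * dk = d0 + b * c) (h2 : n * d0 + c = dk)
    (hm : dk ≤ m - 1)
    (h3 : m * (m * D0) = D0 + b' * d0)
    (h4 : m * (m * D1 + dk) + d0 = D1 + b' * d1) : m = b := by
  -- c is positive
  have hc0 : 0 < c := by
    rcases hc.lt_or_eq with h | h
    · exact h
    · exfalso
      subst h
      have : n * (n * d0) = d0 := by nlinarith
      nlinarith [mul_pos (by linarith : 0 < n) hd0]
  have hcn : c < n := by
    by_contra h
    push Not at h
    nlinarith
  have hdk : d0 < dk := by nlinarith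
  have hm1 : 1 < m := by nlinarith
  have hm0 : 0 < m := by linarith
  have hdk0 : 0 < dk := by linarith
  have hmm : 0 < m ^ 2 - 1 := by nlinarith
  -- l
  obtain ⟨l, hl⟩ : ∃ l, l = d1 * D0 - d0 * D1 := ⟨_, rfl⟩
  have hl1 : l * (m ^ 2 - 1) = d0 * (m * dk + d0) := by
    rw [hl]
    linear_combination d1 * h3 - d0 * h4
  obtain ⟨κ, hκ⟩ : ∃ κ, κ = m * l - d0 * dk := ⟨_, rfl⟩
  have hκ1 : κ * (m ^ 2 - 1) = d0 * (m * d0 + dk) := by
    rw [hκ]
    linear_combination m * hl1
  have hκ2 : m * κ - l = d0 ^ 2 := by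
    rw [hκ]
    linear_combination hl1
  have hlpos : 0 < l := by
    by_contra h
    push Not at h
    have : 0 < d0 * (m * dk + d0) := by positivity
    nlinarith
  have hκpos : 0 < κ := by
    by_contra h
    push Not at h
    have : 0 < d0 * (m * d0 + dk) := by positivity
    nlinarith
  have hκl : κ < l := by
    by_contra h
    push Not at h
    have h5 : d0 * (m * d0 + dk) < d0 * (m * dk + d0) := by
      apply mul_lt_mul_of_pos_left _ hd0
      nlinarith
    nlinarith
  have hld : l < d0 := by
    by_contra h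
    push Not at h
    have h5 : m * dk + d0 < m ^ 2 - 1 := by nlinarith
    have h6 : d0 * (m * dk + d0) < d0 * (m ^ 2 - 1) := mul_lt_mul_of_pos_left h5 hd0
    nlinarith
  have hmain : m * (l - n * κ) = c * d0 + κ - n * l := by
    have h5 : d0 * dk = m * l - κ := by rw [hκ]; ring
    rw [← h2] at h5
    linear_combination -h5 - n * hκ2
  have hub : c * d0 + κ - n * l < m := by nlinarith
  have hlb : -m < c * d0 + κ - n * l := by nlinarith
  have hlκ : l - n * κ = 0 := by
    rcases lt_trichotomy (l - n * κ) 0 with h | h | h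
    · exfalso; nlinarith
    · exact h
    · exfalso; nlinarith
  have hcd : c * d0 = (n ^ 2 - 1) * κ := by
    rw [hlκ, mul_zero] at hmain
    linear_combination -hmain + n * hlκ
  have hq : c * (m ^ 2 - 1) = (n ^ 2 - 1) * (m * d0 + dk) := by
    have h5 : d0 * (c * (m ^ 2 - 1)) = d0 * ((n ^ 2 - 1) * (m * d0 + dk)) := by
      linear_combination (m ^ 2 - 1) * hcd + (n ^ 2 - 1) * hκ1
    exact mul_left_cancel₀ hd0.ne' h5
  have hbc : b * c = (n ^ 2 - 1) * d0 + n * c := by
    rw [← h2] at h1
    linear_combination -h1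
  have hfin : c * ((m - b) * (m + n)) = 0 := by
    rw [← h2] at hq
    linear_combination hq - m * hbc - n * hbc
  rcases mul_eq_zero.1 hfin with h | h
  · omega
  · rcases mul_eq_zero.1 h with h | h
    · omega
    · exfalso; nlinarith

/-- If `p` is a shifted-symmetric `(n, b)`-palintiple with digits `d 0, …, d k` and carries `c`, and
an `(n', b')`-palintiple with `k + 3` digits has the carries `(0, d_k, …, d_0, 0)`, then `n' = b`. -/
theorem result (n b k : ℕ) (d c : ℕ → ℕ) (hp : IsPalintiple n b k d) (hc : IsCarries n b k d c)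
    (hsymm : ∀ j ≤ k, c j = c (k - j + 1))
    (n' b' : ℕ) (d' c' : ℕ → ℕ) (hp' : IsPalintiple n' b' (k + 2) d')
    (hc' : IsCarries n' b' (k + 2) d' c')
    (h0 : c' 0 = 0) (hinner : ∀ j ≤ k, c' (j + 1) = d j) (hlast : c' (k + 2) = 0) :
    n' = b := by
  have hn := hp.one_lt
  have hk := hp.one_le
  have hn' := hp'.one_lt
  -- columns of p
  have e1 := hc.column 0 (by omega)
  rw [hc.zero, Nat.sub_zero, zero_add, add_zero] at e1
  have e2 := hc.column k le_rfl
  rw [Nat.sub_self, hc.last, mul_zero, add_zero, hsymm k le_rfl, Nat.sub_self, zero_add] at e2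
  -- columns of p'
  have f1 := hc'.column 0 (by omega)
  rw [h0, Nat.sub_zero, hinner 0 (by omega), add_zero] at f1
  have f2 := hc'.column (k + 2) le_rfl
  rw [Nat.sub_self, hc'.last, mul_zero, add_zero, hlast, add_zero] at f2
  have f3 := hc'.column 1 (by omega)
  rw [show k + 2 - 1 = k + 1 by omega, hinner 1 (by omega)] at f3
  have g1 : c' 1 = d 0 := hinner 0 (by omega)
  rw [g1] at f3
  have f4 := hc'.column (k + 1) (by omega)
  rw [show k + 2 - (k + 1) = 1 by omega, hlast, mul_zero, add_zero, hinner k le_rfl] at f4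
  -- carries are less than n'
  have hcar : ∀ j ≤ k + 2, c' j < n' := by
    intro j
    induction j with
    | zero => intro _; rw [h0]; omega
    | succ j ih =>
      intro hj
      have h5 := ih (by omega)
      have h6 := hc'.column j (by omega)
      have h7 := hp'.digit (k + 2 - j) (by omega)
      by_contra h8
      push Not at h8
      have h9 : b' * n' ≤ b' * c' (j + 1) := Nat.mul_le_mul_left _ h8
      have h10 : n' * d' (k + 2 - j) + n' ≤ n' * b' := by
        calc n' * d' (k + 2 - j) + n' = n' * (d' (k + 2 - j) + 1) := by ring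
          _ ≤ n' * b' := Nat.mul_le_mul_left _ h7
      have h11 : b' * n' = n' * b' := mul_comm _ _
      omega
  have hm := hcar (k + 1) (by omega)
  rw [hinner k le_rfl] at hm
  have hd0 := hp.last_ne
  have hdkb := hp.digit k le_rfl
  have hb3 := hp.three_le
  have := key n b n' (d 0) (d k) (c 1) (d' 0) (d' 1) b' (d 1) (by exact_mod_cast hn)
    (by exact_mod_cast (by omega : 0 < b)) (by exact_mod_cast (by omega : 0 < d 0))
    (by positivity) (by exact_mod_cast hdkb) (by exact_mod_cast e1) (by exact_mod_cast e2)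
    (by have : (d k : ℤ) < n' := by exact_mod_cast hm
        linarith)
    (by rw [← f2] at f1; exact_mod_cast f1) (by rw [← f4] at f3; exact_mod_cast f3)
  exact_mod_cast this

end Pool.Agent.Results.MP_6bbb8b_nt.MultiplierEqualsBase
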